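import Pool.Agent.Q157.OM.Stm

/-!
# Project OM (helper157), JOB OM-count

Owner helper182.
-/

set_option autoImplicit false

namespace Pool.Agent.Q182.OM

open Finset
open Pool.Agent.Q157.OM

/-- the permutation of the ranks of the values of an injective function -/
theorem exists_rank {k : ℕ} (f : Fin k → ℕ) (hf : Function.Injective f) :
    ∃ π : Equiv.Perm (Fin k), ∀ (h : (univ.image f).card = k) (a : Fin k),
      f a = (univ.image f).orderEmbOfFin h (π a) := by
  classical
  have hc : (univ.image f).card = k := by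
    rw [card_image_of_injective _ hf, card_univ, Fintype.card_fin]
  set o := (univ.image f).orderIsoOfFin hc with ho
  have hinj : Function.Injective (fun a : Fin k => o.symm ⟨f a, mem_image_of_mem f (mem_univ a)⟩) := by
    intro a b hab
    have h1 := o.symm.injective hab
    exact hf (Subtype.ext_iff.1 h1)
  refine ⟨Equiv.ofBijective _ (Finite.injective_iff_bijective.1 hinj), ?_⟩
  intro h a
  rw [Equiv.ofBijective_apply, ← coe_orderIsoOfFin_apply, ← ho, OrderIso.apply_symm_apply]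

theorem emb_congr {k : ℕ} {s s' : Finset ℕ} (h : s.card = k) (h' : s'.card = k) (hs : s = s')
    (c : Fin k) : s.orderEmbOfFin h c = s'.orderEmbOfFin h' c := by
  subst hs
  rfl

section

variable {r k : ℕ} {Ps : Set (List Letter)} {x : Fin k → Finset ℕ}

theorem Sq_disj (h : Sq r Ps k x) {a b : Fin k} (hab : a ≠ b) : Disjoint (x a) (x b) := by
  rcases lt_or_gt_of_ne hab with h1 | h1
  · exact (h.2 a b h1).1
  · exact (h.2 b a h1).1.symm

theorem el_unique (h1 : S_el) (h : Sq r Ps k x) {a b : Fin k} {i j : ℕ} (hi : i < r) (hj : j < r)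
    (he : el (x a) i = el (x b) j) : a = b ∧ i = j := by
  have ha := h1.1 (x a) i (by rw [h.1 a]; exact hi)
  have hb := h1.1 (x b) j (by rw [h.1 b]; exact hj)
  have hab : a = b := by
    by_contra hne
    rw [he] at ha
    exact Finset.disjoint_left.1 (Sq_disj h hne) ha hb
  refine ⟨hab, ?_⟩
  subst hab
  rcases lt_trichotomy i j with h2 | h2 | h2
  · have := h1.2.1 (x a) i j h2 (by rw [h.1 a]; exact hj)
    omega
  · exact h2
  · have := h1.2.1 (x a) j i h2 (by rw [h.1 a]; exact hi)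
    omega

/-- the data of a clique -/
def Dat (r k : ℕ) (Ps : Set (List Letter)) (N : Finset (Finset ℕ)) (w : Fin (r * k) → Fin r)
    (π : Fin r → Equiv.Perm (Fin k)) (x : Fin k → Finset ℕ) : Prop :=
  Sq r Ps k x ∧ univ.image x = N ∧ (∀ v : Fin (r * k), ∃ a, (v : ℕ) + 1 = el (x a) (w v)) ∧
    ∀ (i : Fin r) (h : (univ.image (fun a => el (x a) i)).card = k) (a : Fin k),
      el (x a) i = (univ.image (fun a => el (x a) i)).orderEmbOfFin h (π i a)

theorem card_matching {N : Finset (Finset ℕ)} (hr : 1 ≤ r) (h : IsMatching r (Icc 1 (r * k)) N) :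
    N.card = k := by
  have h2 : (N.biUnion id).card = N.card * r := by
    rw [card_biUnion (t := id) (fun e he f hf hef => h.2.1 e he f hf hef)]
    rw [sum_congr rfl (fun e he => show (id e).card = r from h.1 e he), sum_const, smul_eq_mul]
  rw [h.2.2, Nat.card_Icc, Nat.add_sub_cancel, mul_comm] at h2
  exact (Nat.eq_of_mul_eq_mul_right hr h2).symm

theorem exists_dat (h1 : S_el) (h2 : S_sq) (hr : 1 ≤ r) {N : Finset (Finset ℕ)}
    (h : IsMatching r (Icc 1 (r * k)) N) (hN : IsClique Ps N) :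
    ∃ (w : Fin (r * k) → Fin r) (π : Fin r → Equiv.Perm (Fin k)) (x : Fin k → Finset ℕ),
      Dat r k Ps N w π x := by
  obtain ⟨x, hx, hxN⟩ := (h2 r Ps hr).1 k _ N h hN (card_matching hr h)
  have hw : ∀ v : Fin (r * k), ∃ i : Fin r, ∃ a, (v : ℕ) + 1 = el (x a) i := by
    intro v
    have hv : (v : ℕ) + 1 ∈ N.biUnion id := by
      rw [h.2.2, mem_Icc]
      have := v.2
      omega
    obtain ⟨e, he, hve⟩ := mem_biUnion.1 hv
    rw [← hxN] at he
    obtain ⟨a, _, rfl⟩ := mem_image.1 he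
    obtain ⟨i, hi, hi'⟩ := h1.2.2.1 (x a) _ hve
    rw [hx.1 a] at hi
    exact ⟨⟨i, hi⟩, a, hi'.symm⟩
  choose w hw using hw
  have hπ : ∀ i : Fin r, ∃ π : Equiv.Perm (Fin k),
      ∀ (h : (univ.image (fun a => el (x a) i)).card = k) (a : Fin k),
        el (x a) i = (univ.image (fun a => el (x a) i)).orderEmbOfFin h (π a) := by
    intro i
    exact exists_rank (fun a => el (x a) i) (fun a b hab => (el_unique h1 hx i.2 i.2 hab).1)
  choose π hπ using hπ
  exact ⟨w, π, x, hx, hxN, hw, hπ⟩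

theorem card_lev (h1 : S_el) (hx : Sq r Ps k x) (i : Fin r) :
    (univ.image (fun a => el (x a) i)).card = k := by
  rw [card_image_of_injective _ (fun a b hab => (el_unique h1 hx i.2 i.2 hab).1), card_univ,
    Fintype.card_fin]

theorem lev_sub (h1 : S_el) {N N' : Finset (Finset ℕ)} (h : IsMatching r (Icc 1 (r * k)) N)
    {w : Fin (r * k) → Fin r} {π π' : Fin r → Equiv.Perm (Fin k)} {x x' : Fin k → Finset ℕ}
    (hd : Dat r k Ps N w π x) (hd' : Dat r k Ps N' w π' x') (i : Fin r) :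
    univ.image (fun a => el (x a) i) ⊆ univ.image (fun a => el (x' a) i) := by
  intro n hn
  obtain ⟨a, _, rfl⟩ := mem_image.1 hn
  have hmem : el (x a) i ∈ N.biUnion id := by
    rw [mem_biUnion]
    refine ⟨x a, ?_, h1.1 (x a) i (by rw [hd.1.1 a]; exact i.2)⟩
    rw [← hd.2.1]
    exact mem_image_of_mem x (mem_univ a)
  rw [h.2.2, mem_Icc] at hmem
  obtain ⟨v, hv⟩ : ∃ v : Fin (r * k), (v : ℕ) + 1 = el (x a) i :=
    ⟨⟨el (x a) i - 1, by omega⟩, by simp only; omega⟩
  obtain ⟨b, hb⟩ := hd.2.2.1 v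
  have hwi : w v = i := by
    have h3 := el_unique h1 hd.1 (w v).2 i.2 (hb.symm.trans hv)
    exact Fin.ext h3.2
  obtain ⟨b', hb'⟩ := hd'.2.2.1 v
  rw [hwi] at hb'
  rw [mem_image]
  exact ⟨b', mem_univ _, hb'.symm.trans hv⟩

theorem dat_inj (h1 : S_el) {N N' : Finset (Finset ℕ)} (h : IsMatching r (Icc 1 (r * k)) N)
    (h' : IsMatching r (Icc 1 (r * k)) N')
    {w : Fin (r * k) → Fin r} {π : Fin r → Equiv.Perm (Fin k)} {x x' : Fin k → Finset ℕ}
    (hd : Dat r k Ps N w π x) (hd' : Dat r k Ps N' w π x') : N = N' := by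
  have hlev : ∀ i : Fin r, univ.image (fun a => el (x a) i) = univ.image (fun a => el (x' a) i) :=
    fun i => Subset.antisymm (lev_sub h1 h hd hd' i) (lev_sub h1 h' hd' hd i)
  have hel : ∀ (i : Fin r) (a : Fin k), el (x a) i = el (x' a) i := by
    intro i a
    rw [hd.2.2.2 i (card_lev h1 hd.1 i) a, hd'.2.2.2 i (card_lev h1 hd'.1 i) a]
    exact emb_congr _ _ (hlev i) _
  have hsub : ∀ {y y' : Fin k → Finset ℕ}, (∀ a, (y a).card = r) → (∀ a, (y' a).card = r) →
      (∀ (i : Fin r) (a : Fin k), el (y a) i = el (y' a) i) → ∀ a, y a ⊆ y' a := by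
    intro y y' hy hy' hyy a n hn
    obtain ⟨i, hi, rfl⟩ := h1.2.2.1 (y a) n hn
    rw [hy a] at hi
    have h3 := hyy ⟨i, hi⟩ a
    simp only at h3
    rw [h3]
    exact h1.1 (y' a) i (by rw [hy' a]; exact hi)
  have hxx : x = x' := by
    funext a
    exact Subset.antisymm (hsub hd.1.1 hd'.1.1 hel a)
      (hsub hd'.1.1 hd.1.1 (fun i a => (hel i a).symm) a)
  rw [← hd.2.1, ← hd'.2.1, hxx]

end

theorem count (h1 : S_el) (h2 : S_sq) : S_count := by
  intro r k Ps hr
  classical
  have hex : ∀ N : {N : Finset (Finset ℕ) // IsMatching r (Icc 1 (r * k)) N ∧ IsClique Ps N},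
      ∃ (w : Fin (r * k) → Fin r) (π : Fin r → Equiv.Perm (Fin k)) (x : Fin k → Finset ℕ),
        Dat r k Ps N.1 w π x := fun N => exists_dat h1 h2 hr N.2.1 N.2.2
  choose w π x hd using hex
  have hocc : ∀ N (i : Fin r), Occ r Ps i k (π N i) := by
    intro N i
    refine ⟨x N, (hd N).1, ?_⟩
    intro a b
    have h3 := (hd N).2.2.2 i (card_lev h1 (hd N).1 i)
    rw [h3 a, h3 b, OrderEmbedding.lt_iff_lt]
  let Φ : {N : Finset (Finset ℕ) // IsMatching r (Icc 1 (r * k)) N ∧ IsClique Ps N} →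
      (Fin (r * k) → Fin r) × ((i : Fin r) → {σ : Equiv.Perm (Fin k) // Occ r Ps i k σ}) :=
    fun N => (w N, fun i => ⟨π N i, hocc N i⟩)
  have hΦ : Function.Injective Φ := by
    intro N N' h
    have hw : w N = w N' := (Prod.ext_iff.1 h).1
    have hπ : π N = π N' := by
      funext i
      have h3 := congrFun (Prod.ext_iff.1 h).2 i
      exact Subtype.ext_iff.1 h3
    apply Subtype.ext
    have hd' := hd N'
    rw [← hw, ← hπ] at hd'
    exact dat_inj h1 N.2.1 N'.2.1 (hd N) hd'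
  have hle := Nat.card_le_card_of_injective Φ hΦ
  refine hle.trans (le_of_eq ?_)
  rw [Nat.card_prod, Nat.card_fun, Nat.card_pi, Finset.prod_range]
  simp

end Pool.Agent.Q182.OM
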