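import Pool.Agent.Q157.OM.Stm
import Pool.Agent.H267R3.Folk

/-!
# Project OM (helper157), JOB OM-ramsey

Owner helper182.
-/

set_option autoImplicit false

namespace Pool.Agent.Q182.OM

open Pool.Agent.Q157.OM

/-- Ramsey's theorem for pairs -/
theorem rp (κ : Type) [Finite κ] [Nonempty κ] (m : ℕ) : ∃ N : ℕ, ∀ c : Fin N → Fin N → κ,
    ∃ (S : Fin m ↪o Fin N) (k : κ), ∀ i j, i < j → c (S i) (S j) = k := by
  obtain ⟨N, hN⟩ := H267R3.Folk.ramseyPairs κ m
  refine ⟨N, fun c => ?_⟩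
  obtain ⟨S, y, hS⟩ := hN c
  rcases y with k | u
  · exact ⟨S, k, fun i j hij => Sum.inl_injective (hS i j hij)⟩
  · exact ⟨S, Classical.arbitrary κ, fun i j hij => absurd (hS i j hij) (by simp)⟩

theorem grid : S_grid := by
  intro κ _ _ m
  obtain ⟨N₁, h₁⟩ := rp κ m
  obtain ⟨N₂, h₂⟩ := rp (Fin N₁ → Fin N₁ → κ) m
  refine ⟨max N₁ N₂, fun c => ?_⟩
  set i₁ : Fin N₁ ↪o Fin (max N₁ N₂) := Fin.castLEOrderEmb (le_max_left _ _)
  set i₂ : Fin N₂ ↪o Fin (max N₁ N₂) := Fin.castLEOrderEmb (le_max_right _ _)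
  obtain ⟨S₂, k₂, hS₂⟩ := h₂ (fun x x' y y' => c (i₂ x) (i₂ x') (i₁ y) (i₁ y'))
  obtain ⟨S₁, k, hS₁⟩ := h₁ k₂
  refine ⟨S₂.trans i₂, S₁.trans i₁, k, ?_⟩
  intro a b a' b' hab hab'
  have h3 := hS₂ a b hab
  have h4 := hS₁ a' b' hab'
  rw [← h3] at h4
  exact h4

theorem fpf_lt {N : ℕ} {s t s' t' : Fin N} (h : s < s') :
    (finProdFinEquiv (s, t) : Fin (N * N)) < finProdFinEquiv (s', t') := by
  rw [Fin.lt_def] at h ⊢
  simp only [finProdFinEquiv_apply_val]
  have h1 := t.2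
  have h2 : N * (s : ℕ) + N ≤ N * (s' : ℕ) := by
    rw [← Nat.mul_succ]
    exact Nat.mul_le_mul_left N h
  omega

theorem ramsey (h : S_grid) : S_ramsey := by
  intro κ _ _ m
  obtain ⟨N, hN⟩ := h (κ × κ) m
  set e : Fin N × Fin N ≃ Fin (N * N) := finProdFinEquiv with he
  refine ⟨N * N, (e.symm.trans (Equiv.prodComm _ _)).trans e, fun c => ?_⟩
  obtain ⟨f, g, ⟨c0, c1⟩, hc⟩ := hN (fun s s' t t' =>
    (c (e (s, t)) (e (s', t')), c (e (s, t')) (e (s', t))))
  refine ⟨c0, c1, fun σ => ?_⟩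
  have hmono : StrictMono (fun a : Fin m => e (f a, g (σ a))) := by
    intro a b hab
    exact fpf_lt (f.strictMono hab)
  refine ⟨OrderEmbedding.ofStrictMono _ hmono, ?_, ?_, ?_⟩
  · intro a b
    simp only [OrderEmbedding.coe_ofStrictMono, Equiv.trans_apply, Equiv.symm_apply_apply,
      Equiv.prodComm_apply, Prod.swap_prod_mk]
    constructor
    · intro hab
      exact fpf_lt (g.strictMono hab)
    · intro hab
      rcases lt_trichotomy (σ a) (σ b) with h1 | h1 | h1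
      · exact h1
      · exfalso
        have h2 := σ.injective h1
        rw [h2] at hab
        exact lt_irrefl _ hab
      · exfalso
        have h2 : e (g (σ b), f b) < e (g (σ a), f a) := fpf_lt (g.strictMono h1)
        exact lt_asymm hab h2
  · intro a b hab hσ
    exact (Prod.ext_iff.1 (hc a b (σ a) (σ b) hab hσ)).1
  · intro a b hab hσ
    exact (Prod.ext_iff.1 (hc a b (σ b) (σ a) hab hσ)).2

end Pool.Agent.Q182.OM
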