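import Pool.Agent.Q157.OM.Stm

/-!
# Project OM (helper157), JOB OM-seg

Owner helper182.
-/

set_option autoImplicit false

namespace Pool.Agent.Q182.OM

open Finset
open Pool.Agent.Q157.OM

/-- a strictly increasing list with the elements of `s` is the sort of `s` -/
theorem sort_of {s : Finset ℕ} {L : List ℕ} (hL : L.Pairwise (· < ·)) (h : ∀ x, x ∈ L ↔ x ∈ s) :
    s.sort (· ≤ ·) = L := by
  have h1 : L.toFinset = s := by
    ext x
    rw [List.mem_toFinset, h]
  have hnd : L.Nodup := hL.imp (fun h => h.ne)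
  rw [← h1]
  exact (List.toFinset_sort (· ≤ ·) hnd).2 (hL.imp (fun h => h.le))

/-- the elements of an edge are monotone -/
theorem el_mono (h1 : S_el) {e : Finset ℕ} {r i j : ℕ} (he : e.card = r) (hij : i ≤ j) (hj : j < r) :
    el e i ≤ el e j := by
  rcases Nat.lt_or_ge i j with h | h
  · exact (h1.2.1 e i j h (by omega)).le
  · have : i = j := by omega
    rw [this]

/-- the first `c` elements of `e` come before the elements of `f` with index `≥ c` -/
theorem sep (h1 : S_el) {e f : Finset ℕ} {r c : ℕ} (he : e.card = r) (hf : f.card = r)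
    (hc : el e (c - 1) < el f c) {i j : ℕ} (hi : i < c) (hj : c ≤ j) (hjr : j < r) :
    el e i < el f j :=
  lt_of_le_of_lt (el_mono h1 he (show i ≤ c - 1 by omega) (by omega))
    (lt_of_lt_of_le hc (el_mono h1 hf hj hjr))

/-- the elements of the segment -/
theorem middle (h1 : S_el) {e f : Finset ℕ} {r a b : ℕ} (he : e.card = r) (hf : f.card = r)
    (hd : Disjoint e f) (hab : a < b) (hbr : b ≤ r)
    (ha : 0 < a → el e (a - 1) < el f a ∧ el f (a - 1) < el e a)
    (hb : b < r → el e (b - 1) < el f b ∧ el f (b - 1) < el e b) {M : List ℕ}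
    (hM : M.Pairwise (· < ·)) (hlen : M.length = 2 * (b - a))
    (hMs : ∀ x, x ∈ M ↔ ∃ i, a ≤ i ∧ i < b ∧ (x = el e i ∨ x = el f i)) :
    (((e ∪ f).sort (· ≤ ·)).drop (2 * a)).take (2 * (b - a)) = M := by
  classical
  -- the first part and the last part
  set s1 : Finset ℕ := (range a).image (el e) ∪ (range a).image (el f) with hs1
  set s3 : Finset ℕ := (Ico b r).image (el e) ∪ (Ico b r).image (el f) with hs3
  have m1 : ∀ x, x ∈ s1 ↔ ∃ i, i < a ∧ (x = el e i ∨ x = el f i) := by
    intro x
    rw [hs1, mem_union, mem_image, mem_image]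
    constructor
    · rintro (⟨i, hi, rfl⟩ | ⟨i, hi, rfl⟩)
      · exact ⟨i, mem_range.1 hi, Or.inl rfl⟩
      · exact ⟨i, mem_range.1 hi, Or.inr rfl⟩
    · rintro ⟨i, hi, rfl | rfl⟩
      · exact Or.inl ⟨i, mem_range.2 hi, rfl⟩
      · exact Or.inr ⟨i, mem_range.2 hi, rfl⟩
  have m3 : ∀ x, x ∈ s3 ↔ ∃ i, b ≤ i ∧ i < r ∧ (x = el e i ∨ x = el f i) := by
    intro x
    rw [hs3, mem_union, mem_image, mem_image]
    constructor
    · rintro (⟨i, hi, rfl⟩ | ⟨i, hi, rfl⟩)
      · exact ⟨i, (mem_Ico.1 hi).1, (mem_Ico.1 hi).2, Or.inl rfl⟩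
      · exact ⟨i, (mem_Ico.1 hi).1, (mem_Ico.1 hi).2, Or.inr rfl⟩
    · rintro ⟨i, hi, hi', rfl | rfl⟩
      · exact Or.inl ⟨i, mem_Ico.2 ⟨hi, hi'⟩, rfl⟩
      · exact Or.inr ⟨i, mem_Ico.2 ⟨hi, hi'⟩, rfl⟩
  -- comparisons
  have sa : ∀ i j, i < a → a ≤ j → j < r → ∀ x y, (x = el e i ∨ x = el f i) →
      (y = el e j ∨ y = el f j) → x < y := by
    intro i j hi hj hjr x y hx hy
    have h2 := ha (by omega)
    rcases hx with rfl | rfl <;> rcases hy with rfl | rfl
    · exact h1.2.1 e i j (by omega) (by omega)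
    · exact sep h1 he hf h2.1 hi hj hjr
    · exact sep h1 hf he h2.2 hi hj hjr
    · exact h1.2.1 f i j (by omega) (by omega)
  have sb : ∀ i j, i < b → b ≤ j → j < r → ∀ x y, (x = el e i ∨ x = el f i) →
      (y = el e j ∨ y = el f j) → x < y := by
    intro i j hi hj hjr x y hx hy
    have h2 := hb (by omega)
    rcases hx with rfl | rfl <;> rcases hy with rfl | rfl
    · exact h1.2.1 e i j (by omega) (by omega)
    · exact sep h1 he hf h2.1 hi hj hjr
    · exact sep h1 hf he h2.2 hi hj hjr
    · exact h1.2.1 f i j (by omega) (by omega)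
  -- the card of the first part
  have hinj : ∀ g : Finset ℕ, g.card = r → ∀ i j, i < r → j < r → el g i = el g j → i = j := by
    intro g hg i j hi hj h
    rcases lt_trichotomy i j with h2 | h2 | h2
    · have := h1.2.1 g i j h2 (by omega)
      omega
    · exact h2
    · have := h1.2.1 g j i h2 (by omega)
      omega
  have hne : ∀ i j, i < r → j < r → el e i ≠ el f j := by
    intro i j hi hj h
    have h2 := h1.1 e i (by omega)
    have h3 := h1.1 f j (by omega)
    rw [h] at h2
    exact Finset.disjoint_left.1 hd h2 h3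
  have c1 : s1.card = 2 * a := by
    rw [hs1, card_union_of_disjoint, card_image_of_injOn, card_image_of_injOn, card_range]
    · ring
    · intro i hi j hj h
      exact hinj f hf i j (by have := mem_range.1 hi; omega) (by have := mem_range.1 hj; omega) h
    · intro i hi j hj h
      exact hinj e he i j (by have := mem_range.1 hi; omega) (by have := mem_range.1 hj; omega) h
    · rw [Finset.disjoint_left]
      intro x hx hx'
      obtain ⟨i, hi, rfl⟩ := mem_image.1 hx
      obtain ⟨j, hj, h⟩ := mem_image.1 hx'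
      exact hne i j (by have := mem_range.1 hi; omega) (by have := mem_range.1 hj; omega) h.symm
  have hsort : (e ∪ f).sort (· ≤ ·) = s1.sort (· ≤ ·) ++ (M ++ s3.sort (· ≤ ·)) := by
    apply sort_of
    · rw [List.pairwise_append, List.pairwise_append]
      refine ⟨?_, ⟨hM, ?_, ?_⟩, ?_⟩
      · exact (sortedLT_sort s1).pairwise
      · exact (sortedLT_sort s3).pairwise
      · intro x hx y hy
        rw [mem_sort, m3] at hy
        obtain ⟨i, hi, hi', hx'⟩ := (hMs x).1 hx
        obtain ⟨j, hj, hj', hy'⟩ := hy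
        exact sb i j hi' hj hj' x y hx' hy'
      · intro x hx y hy
        rw [mem_sort, m1] at hx
        obtain ⟨i, hi, hx'⟩ := hx
        rw [List.mem_append, mem_sort, m3, hMs] at hy
        rcases hy with ⟨j, hj, hj', hy'⟩ | ⟨j, hj, hj', hy'⟩
        · exact sa i j hi hj (by omega) x y hx' hy'
        · exact sa i j hi (by omega) hj' x y hx' hy'
    · intro x
      rw [List.mem_append, List.mem_append, mem_sort, mem_sort, m1, m3, hMs, mem_union]
      constructor
      · have h2 : ∀ i, i < r → (x = el e i ∨ x = el f i) → x ∈ e ∨ x ∈ f := by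
          rintro i hi (rfl | rfl)
          · exact Or.inl (h1.1 e i (by omega))
          · exact Or.inr (h1.1 f i (by omega))
        rintro (⟨i, hi, h⟩ | ⟨i, _, hi, h⟩ | ⟨i, _, hi, h⟩)
        · exact h2 i (by omega) h
        · exact h2 i (by omega) h
        · exact h2 i (by omega) h
      · intro h
        have h2 : ∃ i, i < r ∧ (x = el e i ∨ x = el f i) := by
          rcases h with h | h
          · obtain ⟨i, hi, h3⟩ := h1.2.2.1 e x h
            exact ⟨i, by omega, Or.inl h3.symm⟩
          · obtain ⟨i, hi, h3⟩ := h1.2.2.1 f x h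
            exact ⟨i, by omega, Or.inr h3.symm⟩
        obtain ⟨i, hi, h3⟩ := h2
        rcases Nat.lt_or_ge i a with h4 | h4
        · exact Or.inl ⟨i, h4, h3⟩
        · rcases Nat.lt_or_ge i b with h5 | h5
          · exact Or.inr (Or.inl ⟨i, h4, h5, h3⟩)
          · exact Or.inr (Or.inr ⟨i, h5, hi, h3⟩)
  rw [hsort, List.drop_append_of_le_length, List.drop_of_length_le, List.nil_append,
    List.take_append_of_le_length, List.take_of_length_le]
  · omega
  · omega
  · rw [length_sort, c1]
  · rw [length_sort, c1]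

/-- the elements with indices in `[a, b)` -/
theorem pw (h1 : S_el) {e : Finset ℕ} {r a b : ℕ} (he : e.card = r) (hbr : b ≤ r) :
    ((List.range' a (b - a)).map (el e)).Pairwise (· < ·) := by
  rw [List.pairwise_map]
  apply (List.pairwise_lt_range' (s := a) (n := b - a) (step := 1)).imp_of_mem
  intro i j hi hj hij
  rw [List.mem_range'_1] at hj
  exact h1.2.1 e i j hij (by omega)

theorem mem_seg {e : Finset ℕ} {a b x : ℕ} (hab : a < b) :
    x ∈ (List.range' a (b - a)).map (el e) ↔ ∃ i, a ≤ i ∧ i < b ∧ x = el e i := by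
  rw [List.mem_map]
  constructor
  · rintro ⟨i, hi, rfl⟩
    rw [List.mem_range'_1] at hi
    exact ⟨i, hi.1, by omega, rfl⟩
  · rintro ⟨i, hi, hi', rfl⟩
    exact ⟨i, by rw [List.mem_range'_1]; omega, rfl⟩

theorem seg (h1 : S_el) : S_seg := by
  intro r e f he hf hd a b hab hbr ha hb
  have hA : ((List.range' a (b - a)).map (el e)).map
      (fun x => if x ∈ e then Letter.A else Letter.B) = List.replicate (b - a) Letter.A := by
    rw [List.eq_replicate_iff]
    refine ⟨by simp, ?_⟩
    intro x hx
    obtain ⟨y, hy, rfl⟩ := List.mem_map.1 hx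
    obtain ⟨i, hi, hi', rfl⟩ := (mem_seg hab).1 hy
    rw [if_pos (h1.1 e i (by omega))]
  have hB : ((List.range' a (b - a)).map (el f)).map
      (fun x => if x ∈ e then Letter.A else Letter.B) = List.replicate (b - a) Letter.B := by
    rw [List.eq_replicate_iff]
    refine ⟨by simp, ?_⟩
    intro x hx
    obtain ⟨y, hy, rfl⟩ := List.mem_map.1 hx
    obtain ⟨i, hi, hi', rfl⟩ := (mem_seg hab).1 hy
    rw [if_neg]
    intro h
    exact Finset.disjoint_left.1 hd h (h1.1 f i (by omega))
  constructor
  · intro hc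
    have hm := middle h1 he hf hd hab hbr ha hb
      (M := (List.range' a (b - a)).map (el e) ++ (List.range' a (b - a)).map (el f))
      (by
        rw [List.pairwise_append]
        refine ⟨pw h1 he hbr, pw h1 hf hbr, ?_⟩
        intro x hx y hy
        obtain ⟨i, hi, hi', rfl⟩ := (mem_seg hab).1 hx
        obtain ⟨j, hj, hj', rfl⟩ := (mem_seg hab).1 hy
        exact lt_of_le_of_lt (el_mono h1 he (show i ≤ b - 1 by omega) (by omega))
          (lt_of_lt_of_le hc (el_mono h1 hf hj (by omega))))
      (by simp; ring)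
      (by
        intro x
        rw [List.mem_append, mem_seg hab, mem_seg hab]
        constructor
        · rintro (⟨i, hi, hi', h⟩ | ⟨i, hi, hi', h⟩)
          · exact ⟨i, hi, hi', Or.inl h⟩
          · exact ⟨i, hi, hi', Or.inr h⟩
        · rintro ⟨i, hi, hi', h | h⟩
          · exact Or.inl ⟨i, hi, hi', h⟩
          · exact Or.inr ⟨i, hi, hi', h⟩)
    unfold word
    rw [← List.map_drop, ← List.map_take, hm, List.map_append, hA, hB]
    simp [block]
  · intro hc
    have hm := middle h1 he hf hd hab hbr ha hb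
      (M := (List.range' a (b - a)).map (el f) ++ (List.range' a (b - a)).map (el e))
      (by
        rw [List.pairwise_append]
        refine ⟨pw h1 hf hbr, pw h1 he hbr, ?_⟩
        intro x hx y hy
        obtain ⟨i, hi, hi', rfl⟩ := (mem_seg hab).1 hx
        obtain ⟨j, hj, hj', rfl⟩ := (mem_seg hab).1 hy
        exact lt_of_le_of_lt (el_mono h1 hf (show i ≤ b - 1 by omega) (by omega))
          (lt_of_lt_of_le hc (el_mono h1 he hj (by omega))))
      (by simp; ring)
      (by
        intro x
        rw [List.mem_append, mem_seg hab, mem_seg hab]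
        constructor
        · rintro (⟨i, hi, hi', h⟩ | ⟨i, hi, hi', h⟩)
          · exact ⟨i, hi, hi', Or.inr h⟩
          · exact ⟨i, hi, hi', Or.inl h⟩
        · rintro ⟨i, hi, hi', h | h⟩
          · exact Or.inr ⟨i, hi, hi', h⟩
          · exact Or.inl ⟨i, hi, hi', h⟩)
    unfold word
    rw [← List.map_drop, ← List.map_take, hm, List.map_append, hA, hB]
    simp [block]

end Pool.Agent.Q182.OM
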